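import Pool.Agent.H82.HD.TA
import Pool.Agent.H83.G.Chain

/-!
MP_ee74d2_an, theorem HD: covering of fat regions by the regions `Om` (CVR).
-/

set_option autoImplicit false

namespace Pool.Agent.H97.HD

open MeasureTheory Set
open Pool.Agent.H83.G Pool.Agent.H83.G.Chain
open Pool.Agent.H82.HD
open scoped ENNReal NNReal

variable {m : ℕ}

/-- the point of `ℝ × ℝ^m` with integer coordinates -/
noncomputable def pc (i : ℤ × (Fin m → ℤ)) : ℝ × E m :=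
  ((i.1 : ℝ), WithLp.toLp 2 (fun j => (i.2 j : ℝ)))

/-- box of indices -/
noncomputable def bx (m : ℕ) (M : ℤ) : Finset (ℤ × (Fin m → ℤ)) :=
  Finset.Icc (-M) M ×ˢ (Fintype.piFinset fun _ => Finset.Icc (-M) M)

/-- box of indices -/
noncomputable def bz (m : ℕ) (M : ℤ) : Finset (Zi m) :=
  Finset.Icc (-M) M ×ˢ ((Fintype.piFinset fun _ => Finset.Icc (-M) M) ×ˢ Finset.Icc (-M) M)

theorem card_bx (M : ℤ) (hM : 0 ≤ M) : ((bx m M).card : ℝ) = (2 * (M : ℝ) + 1) ^ (m + 1) := by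
  have h1 : ((M + 1 - -M).toNat : ℝ) = 2 * (M : ℝ) + 1 := by
    have h2 : (((M + 1 - -M).toNat : ℤ) : ℝ) = ((M + 1 - -M : ℤ) : ℝ) := by
      rw [Int.toNat_of_nonneg (by omega)]
    have h3 : (((M + 1 - -M).toNat : ℤ) : ℝ) = ((M + 1 - -M).toNat : ℝ) := by norm_cast
    rw [← h3, h2]; push_cast; ring
  unfold bx
  rw [Finset.card_product, Fintype.card_piFinset]
  simp only [Int.card_Icc, Finset.prod_const, Finset.card_univ, Fintype.card_fin]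
  push_cast
  rw [h1]
  ring

theorem card_bz (M : ℤ) (hM : 0 ≤ M) : ((bz m M).card : ℝ) = (2 * (M : ℝ) + 1) ^ (m + 2) := by
  have h1 : ((M + 1 - -M).toNat : ℝ) = 2 * (M : ℝ) + 1 := by
    have h2 : (((M + 1 - -M).toNat : ℤ) : ℝ) = ((M + 1 - -M : ℤ) : ℝ) := by
      rw [Int.toNat_of_nonneg (by omega)]
    have h3 : (((M + 1 - -M).toNat : ℤ) : ℝ) = ((M + 1 - -M).toNat : ℝ) := by norm_cast
    rw [← h3, h2]; push_cast; ring
  unfold bz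
  rw [Finset.card_product, Finset.card_product, Fintype.card_piFinset]
  simp only [Int.card_Icc, Finset.prod_const, Finset.card_univ, Fintype.card_fin]
  push_cast
  rw [h1]
  ring

theorem mem_Icc_of {M : ℤ} {j : ℤ} {r : ℝ} (h : |(j : ℝ)| ≤ r) (hr : r ≤ M) :
    j ∈ Finset.Icc (-M) M := by
  rw [abs_le] at h
  rw [Finset.mem_Icc]
  constructor
  · have : ((-M : ℤ) : ℝ) ≤ (j : ℝ) := by push_cast; linarith [h.1]
    exact_mod_cast this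
  · have : (j : ℝ) ≤ (M : ℝ) := by linarith [h.2]
    exact_mod_cast this

theorem coord_le (v : E m) (j : Fin m) : |v j| ≤ ‖v‖ := by
  have := PiLp.norm_apply_le (p := 2) v j
  simpa [Real.norm_eq_abs] using this

theorem mem_bx {M : ℤ} {i : ℤ × (Fin m → ℤ)} {r : ℝ} (h : ‖pc i‖ ≤ r) (hr : r ≤ M) :
    i ∈ bx m M := by
  have h1 : |(i.1 : ℝ)| ≤ r := by
    have := norm_fst_le (pc i)
    rw [Real.norm_eq_abs] at this
    exact le_trans this h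
  have h2 : ‖(pc i).2‖ ≤ r := le_trans (norm_snd_le (pc i)) h
  unfold bx
  rw [Finset.mem_product, Fintype.mem_piFinset]
  refine ⟨mem_Icc_of h1 hr, fun j => mem_Icc_of (r := r) ?_ hr⟩
  have := coord_le (pc i).2 j
  exact le_trans this h2

theorem mem_bz {M : ℤ} {l : Zi m} {r : ℝ} (h : ‖zc l‖ ≤ r) (hr : r ≤ M) :
    l ∈ bz m M := by
  have h1 : |(l.1 : ℝ)| ≤ r := by
    have := norm_fst_le (zc l)
    rw [Real.norm_eq_abs] at this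
    exact le_trans this h
  have h0 : ‖(zc l).2‖ ≤ r := le_trans (norm_snd_le (zc l)) h
  have h2 : ‖(zc l).2.1‖ ≤ r := le_trans (norm_fst_le (zc l).2) h0
  have h3 : |(l.2.2 : ℝ)| ≤ r := by
    have := norm_snd_le (zc l).2
    rw [Real.norm_eq_abs] at this
    exact le_trans this h0
  unfold bz
  rw [Finset.mem_product, Finset.mem_product, Fintype.mem_piFinset]
  refine ⟨mem_Icc_of h1 hr, fun j => mem_Icc_of (r := r) ?_ hr, mem_Icc_of h3 hr⟩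
  have := coord_le (zc l).2.1 j
  exact le_trans this h2

/-- approximation in `ℝ × ℝ^m` -/
theorem approx (x : ℝ × E m) : ∃ i : ℤ × (Fin m → ℤ), ‖x - pc i‖ ≤ (m : ℝ) + 1 := by
  obtain ⟨l, hl⟩ := (m_WT3 m (m + 3) le_rfl).choose_spec.2.2.2.2 ((x.1, x.2, 0) : Z m)
  refine ⟨(l.1, l.2.1), ?_⟩
  have h1 := le_trans (norm_fst_le ((x.1, x.2, 0) - zc l : Z m)) hl
  have h2 := le_trans (norm_fst_le ((x.1, x.2, 0) - zc l : Z m).2)
    (le_trans (norm_snd_le ((x.1, x.2, 0) - zc l : Z m)) hl)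
  rw [Prod.norm_def]
  exact max_le h1 h2

theorem cover (T ρ lam : ℝ) (z₁ z : Z m) (p : ℝ × E m) (η : E m) (M : ℤ)
    (hT : 0 < T) (hρ : 0 < ρ) (hlam : 1 ≤ lam) (hM : 2 * lam * ((m : ℝ) + 1) ≤ M)
    (h1 : ‖z - z₁‖ ≤ lam * ρ) (h2 : ‖bp η z - p‖ ≤ lam * (T * sR ρ)) :
    ∃ q ∈ ((bz m M).filter (fun l => ‖zc l‖ ≤ 2 * lam * ((m : ℝ) + 1))) ×ˢ bx m M,
      z ∈ Om T ρ η (z₁ + (ρ / ((m : ℝ) + 1)) • zc q.1) (p + (T * sR ρ / ((m : ℝ) + 1)) • pc q.2) := by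
  have hm : (0 : ℝ) < (m : ℝ) + 1 := by positivity
  have hs : 0 < sR ρ := by unfold sR; positivity
  have ha : 0 < ρ / ((m : ℝ) + 1) := by positivity
  have hb : 0 < T * sR ρ / ((m : ℝ) + 1) := by positivity
  set a := ρ / ((m : ℝ) + 1) with had
  set b := T * sR ρ / ((m : ℝ) + 1) with hbd
  have ha1 : a * ((m : ℝ) + 1) = ρ := by rw [had]; field_simp
  have hb1 : b * ((m : ℝ) + 1) = T * sR ρ := by rw [hbd]; field_simp
  obtain ⟨l, hl⟩ := (m_WT3 m (m + 3) le_rfl).choose_spec.2.2.2.2 (a⁻¹ • (z - z₁))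
  obtain ⟨i, hi⟩ := approx (m := m) (b⁻¹ • (bp η z - p))
  have h3 : ‖a⁻¹ • (z - z₁)‖ ≤ lam * ((m : ℝ) + 1) := by
    rw [norm_smul, Real.norm_of_nonneg (by positivity), inv_mul_le_iff₀ ha]
    calc ‖z - z₁‖ ≤ lam * ρ := h1
      _ = a * (lam * ((m : ℝ) + 1)) := by rw [← ha1]; ring
  have h4 : ‖b⁻¹ • (bp η z - p)‖ ≤ lam * ((m : ℝ) + 1) := by
    rw [norm_smul, Real.norm_of_nonneg (by positivity), inv_mul_le_iff₀ hb]
    calc ‖bp η z - p‖ ≤ lam * (T * sR ρ) := h2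
      _ = b * (lam * ((m : ℝ) + 1)) := by rw [← hb1]; ring
  have h5 : ‖zc l‖ ≤ 2 * lam * ((m : ℝ) + 1) := by
    have h6 : ‖zc l‖ ≤ ‖a⁻¹ • (z - z₁)‖ + ‖a⁻¹ • (z - z₁) - zc l‖ := by
      have := norm_sub_le (a⁻¹ • (z - z₁)) (a⁻¹ • (z - z₁) - zc l)
      rwa [sub_sub_cancel] at this
    nlinarith
  have h7 : ‖pc i‖ ≤ 2 * lam * ((m : ℝ) + 1) := by
    have h6 : ‖pc i‖ ≤ ‖b⁻¹ • (bp η z - p)‖ + ‖b⁻¹ • (bp η z - p) - pc i‖ := by
      have := norm_sub_le (b⁻¹ • (bp η z - p)) (b⁻¹ • (bp η z - p) - pc i)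
      rwa [sub_sub_cancel] at this
    nlinarith
  refine ⟨(l, i), ?_, ?_, ?_⟩
  · rw [Finset.mem_product, Finset.mem_filter]
    exact ⟨⟨mem_bz h5 hM, h5⟩, mem_bx h7 hM⟩
  · show ‖z - (z₁ + a • zc l)‖ ≤ ρ
    have h8 : z - (z₁ + a • zc l) = a • (a⁻¹ • (z - z₁) - zc l) := by
      rw [smul_sub, smul_smul, mul_inv_cancel₀ ha.ne', one_smul]; abel
    rw [h8, norm_smul, Real.norm_of_nonneg ha.le, ← ha1]
    exact mul_le_mul_of_nonneg_left hl ha.le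
  · show ‖bp η z - (p + b • pc i)‖ ≤ T * sR ρ
    have h8 : bp η z - (p + b • pc i) = b • (b⁻¹ • (bp η z - p) - pc i) := by
      rw [smul_sub, smul_smul, mul_inv_cancel₀ hb.ne', one_smul]; abel
    rw [h8, norm_smul, Real.norm_of_nonneg hb.le, ← hb1]
    exact mul_le_mul_of_nonneg_left hi hb.le

theorem lint_union {ι : Type} (Q : Finset ι) (A : Set (Z m)) (B : ι → Set (Z m))
    (f : Z m → ℝ≥0∞) (h : ∀ z ∈ A, ∃ q ∈ Q, z ∈ B q) :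
    ∫⁻ z in A, f z ≤ ∑ q ∈ Q, ∫⁻ z in B q, f z := by
  have h1 : A ⊆ ⋃ q : Q, B q := by
    intro z hz
    obtain ⟨q, hq, hzq⟩ := h z hz
    exact mem_iUnion.2 ⟨⟨q, hq⟩, hzq⟩
  calc ∫⁻ z in A, f z ≤ ∫⁻ z in ⋃ q : Q, B q, f z := lintegral_mono_set h1
    _ ≤ ∑' q : Q, ∫⁻ z in B q, f z := lintegral_iUnion_le _ _
    _ = ∑ q : Q, ∫⁻ z in B q, f z := tsum_fintype _
    _ = ∑ q ∈ Q, ∫⁻ z in B q, f z := Finset.sum_coe_sort Q (fun q => ∫⁻ z in B q, f z)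

theorem pf_CVR : T_CVR := by
  intro m
  have hm : (0 : ℝ) < (m : ℝ) + 1 := by positivity
  have hm1 : (1 : ℝ) ≤ (m : ℝ) + 1 := by
    have : (0 : ℝ) ≤ (m : ℝ) := Nat.cast_nonneg m
    linarith
  refine ⟨(7 * ((m : ℝ) + 1)) ^ (2 * m + 3), one_le_pow₀ (by linarith), ?_⟩
  intro T ρ lam z₁ p K η f S hT hρ hlam hyp
  set M : ℤ := ⌈2 * lam * ((m : ℝ) + 1)⌉ with hMd
  have hM : 2 * lam * ((m : ℝ) + 1) ≤ M := Int.le_ceil _
  have hM2 : (M : ℝ) < 2 * lam * ((m : ℝ) + 1) + 1 := Int.ceil_lt_add_one _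
  have hL : 1 ≤ lam * ((m : ℝ) + 1) := by nlinarith
  have hM0 : 0 ≤ M := by
    have : (0 : ℝ) ≤ (M : ℝ) := by nlinarith
    exact_mod_cast this
  set LL := (bz m M).filter (fun l => ‖zc l‖ ≤ 2 * lam * ((m : ℝ) + 1)) with hLL
  set Q := LL ×ˢ bx m M with hQ
  have h1 : ∀ k ∈ K, ∫⁻ z in {z : Z m | ‖z - z₁‖ ≤ lam * ρ ∧
      ‖bp (η k) z - p‖ ≤ lam * (T * sR ρ)}, f k z ≤
      ∑ q ∈ Q, ∫⁻ z in Om T ρ (η k) (z₁ + (ρ / ((m : ℝ) + 1)) • zc q.1)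
        (p + (T * sR ρ / ((m : ℝ) + 1)) • pc q.2), f k z := by
    intro k _
    apply lint_union
    intro z hz
    exact cover T ρ lam z₁ z p (η k) M hT hρ hlam hM hz.1 hz.2
  have h2 : ∀ q ∈ Q, ∑ k ∈ K, ∫⁻ z in Om T ρ (η k) (z₁ + (ρ / ((m : ℝ) + 1)) • zc q.1)
        (p + (T * sR ρ / ((m : ℝ) + 1)) • pc q.2), f k z ≤ S := by
    intro q hq
    apply hyp
    rw [hQ, Finset.mem_product, hLL, Finset.mem_filter] at hq
    rw [add_sub_cancel_left, norm_smul, Real.norm_of_nonneg (by positivity)]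
    calc ρ / ((m : ℝ) + 1) * ‖zc q.1‖ ≤ ρ / ((m : ℝ) + 1) * (2 * lam * ((m : ℝ) + 1)) :=
          mul_le_mul_of_nonneg_left hq.1.2 (by positivity)
      _ = 2 * lam * ρ := by field_simp
  have h3 : (Q.card : ℝ) ≤ (7 * ((m : ℝ) + 1)) ^ (2 * m + 3) * lam ^ (2 * m + 3) := by
    have h4 : (Q.card : ℝ) ≤ (2 * (M : ℝ) + 1) ^ (m + 2) * (2 * (M : ℝ) + 1) ^ (m + 1) := by
      rw [← card_bz (m := m) M hM0, ← card_bx (m := m) M hM0, hQ, Finset.card_product]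
      push_cast
      apply mul_le_mul_of_nonneg_right _ (by positivity)
      exact_mod_cast Finset.card_le_card (Finset.filter_subset _ _)
    have h5 : 2 * (M : ℝ) + 1 ≤ 7 * ((m : ℝ) + 1) * lam := by nlinarith
    have h6 : 0 ≤ 2 * (M : ℝ) + 1 := by
      have : (0 : ℝ) ≤ (M : ℝ) := by exact_mod_cast hM0
      linarith
    calc (Q.card : ℝ) ≤ (2 * (M : ℝ) + 1) ^ (m + 2) * (2 * (M : ℝ) + 1) ^ (m + 1) := h4
      _ = (2 * (M : ℝ) + 1) ^ (2 * m + 3) := by rw [← pow_add]; congr 1; omega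
      _ ≤ (7 * ((m : ℝ) + 1) * lam) ^ (2 * m + 3) := pow_le_pow_left₀ h6 h5 _
      _ = _ := mul_pow _ _ _
  calc ∑ k ∈ K, ∫⁻ z in {z : Z m | ‖z - z₁‖ ≤ lam * ρ ∧
      ‖bp (η k) z - p‖ ≤ lam * (T * sR ρ)}, f k z
      ≤ ∑ k ∈ K, ∑ q ∈ Q, ∫⁻ z in Om T ρ (η k) (z₁ + (ρ / ((m : ℝ) + 1)) • zc q.1)
        (p + (T * sR ρ / ((m : ℝ) + 1)) • pc q.2), f k z := Finset.sum_le_sum h1
    _ = ∑ q ∈ Q, ∑ k ∈ K, ∫⁻ z in Om T ρ (η k) (z₁ + (ρ / ((m : ℝ) + 1)) • zc q.1)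
        (p + (T * sR ρ / ((m : ℝ) + 1)) • pc q.2), f k z := Finset.sum_comm
    _ ≤ ∑ q ∈ Q, S := Finset.sum_le_sum h2
    _ = (Q.card : ℝ≥0∞) * S := by rw [Finset.sum_const, nsmul_eq_mul]
    _ ≤ ENNReal.ofReal ((7 * ((m : ℝ) + 1)) ^ (2 * m + 3) * lam ^ (2 * m + 3)) * S := by
      gcongr
      rw [← ENNReal.ofReal_natCast]
      exact ENNReal.ofReal_le_ofReal h3

end Pool.Agent.H97.HD
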